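import Pool.Agent.Arnold.Main

open Pool.Agent.Arnold

namespace Pool.Agent.Results.MP_6fff33_lc.StabilityUndecidable

/-- **Main theorem.** There are a dimension `n` and a degree bound `d` such that none of the three
notions of stability of the origin can be decided algorithmically for polynomial vector fields on
`ℝⁿ` with rational coefficients, of degree at most `d` and vanishing at the origin. -/
theorem result : ∃ n d : ℕ, ¬ AlgorithmExists n d LyapunovStable ∧
    ¬ AlgorithmExists n d LocallyAsymptoticallyStable ∧
    ¬ AlgorithmExists n d GloballyAsymptoticallyStable :=
  stability_undecidable

end Pool.Agent.Results.MP_6fff33_lc.StabilityUndecidable
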